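import Mathlib

/-!
# The twisted de Rham functional of a weighted homogeneous isolated singularity

`exists_functional`: if `g` is weighted homogeneous with (at most) an isolated critical point at
the origin and without linear terms, there is a linear functional `I` on the polynomials with
`I 1 = 1` which vanishes on all `(∂ᵢ - gᵢ) q`.
-/

set_option autoImplicit false

namespace Pool.Agent.Helper47_Mono

open MvPolynomial

section Comp

variable {τ : Type} {K : Type} [Field K] (w : τ → ℤ)

theorem comp_pderiv (i : τ) (e : ℤ) (p : MvPolynomial τ K) :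
    weightedHomogeneousComponent w e (pderiv i p) =
      pderiv i (weightedHomogeneousComponent w (e + w i) p) := by
  induction p using MvPolynomial.induction_on' with
  | monomial u a =>
    have h1 : IsWeightedHomogeneous w (monomial u a) (Finsupp.weight w u) :=
      isWeightedHomogeneous_monomial w u a rfl
    have h2 : IsWeightedHomogeneous w (pderiv i (monomial u a)) (Finsupp.weight w u - w i) :=
      h1.pderiv (by ring)
    by_cases h : Finsupp.weight w u = e + w i
    · have h3 : Finsupp.weight w u - w i = e := by rw [h]; ring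
      rw [h3] at h2
      rw [h] at h1
      rw [h2.weightedHomogeneousComponent_same, h1.weightedHomogeneousComponent_same]
    · rw [h2.weightedHomogeneousComponent_ne e (by intro h'; apply h; rw [h']; ring),
        h1.weightedHomogeneousComponent_ne (e + w i) (Ne.symm h), map_zero]
  | add p q hp hq => simp only [map_add, hp, hq]

theorem comp_mul {h : MvPolynomial τ K} {a : ℤ} (hh : IsWeightedHomogeneous w h a) (e : ℤ)
    (p : MvPolynomial τ K) :
    weightedHomogeneousComponent w (e + a) (h * p) =
      h * weightedHomogeneousComponent w e p := by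
  induction p using MvPolynomial.induction_on' with
  | monomial u c =>
    have h1 : IsWeightedHomogeneous w (monomial u c) (Finsupp.weight w u) :=
      isWeightedHomogeneous_monomial w u c rfl
    have h2 := hh.mul h1
    by_cases h : Finsupp.weight w u = e
    · rw [h] at h1 h2
      rw [h1.weightedHomogeneousComponent_same, add_comm e a, h2.weightedHomogeneousComponent_same]
    · rw [h2.weightedHomogeneousComponent_ne (e + a) (by intro h'; apply h; linarith),
        h1.weightedHomogeneousComponent_ne e (Ne.symm h), mul_zero]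
  | add p q hp hq => simp only [map_add, mul_add, hp, hq]

theorem comp_comp (e e' : ℤ) (p : MvPolynomial τ K) :
    weightedHomogeneousComponent w e (weightedHomogeneousComponent w e' p) =
      if e = e' then weightedHomogeneousComponent w e' p else 0 := by
  have h := weightedHomogeneousComponent_isWeightedHomogeneous (w := w) e' p
  split_ifs with h1
  · rw [h1, h.weightedHomogeneousComponent_same]
  · rw [h.weightedHomogeneousComponent_ne e h1]

theorem comp_large (p : MvPolynomial τ K) :
    ∃ E : ℤ, ∀ e, E < e → weightedHomogeneousComponent w e p = 0 := by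
  classical
  refine ⟨p.support.sum fun u => |Finsupp.weight w u|, fun e he => ?_⟩
  apply weightedHomogeneousComponent_eq_zero'
  intro u hu h
  have h1 : |Finsupp.weight w u| ≤ p.support.sum fun u => |Finsupp.weight w u| :=
    Finset.single_le_sum (f := fun u => |Finsupp.weight w u|) (fun i _ => abs_nonneg _) hu
  have h2 := le_abs_self (Finsupp.weight w u)
  omega

end Comp

section Main

variable {τ : Type} [Fintype τ] [DecidableEq τ]

omit [Fintype τ] in
/-- second partial derivatives commute -/
theorem pderiv_comm' (i j : τ) (p : MvPolynomial τ ℂ) :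
    pderiv i (pderiv j p) = pderiv j (pderiv i p) := by
  have h : ⁅(pderiv i : Derivation ℂ (MvPolynomial τ ℂ) (MvPolynomial τ ℂ)),
      (pderiv j : Derivation ℂ (MvPolynomial τ ℂ) (MvPolynomial τ ℂ))⁆ = 0 := by
    apply MvPolynomial.derivation_ext
    intro k
    rw [Derivation.commutator_apply, pderiv_X, pderiv_X]
    have h1 : ∀ a b c : τ, pderiv a ((Pi.single b 1 : τ → MvPolynomial τ ℂ) c) = 0 := by
      intro a b c
      rw [Pi.single_apply]
      split_ifs <;> simp
    rw [h1, h1, sub_zero, Derivation.coe_zero, Pi.zero_apply]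
  have h2 := congrArg (fun D : Derivation ℂ (MvPolynomial τ ℂ) (MvPolynomial τ ℂ) => D p) h
  simp only [Derivation.commutator_apply, Derivation.coe_zero, Pi.zero_apply] at h2
  exact sub_eq_zero.1 h2

omit [DecidableEq τ] in
/-- antisymmetric times symmetric is zero -/
theorem sum_anti_symm (Q S : τ → τ → MvPolynomial τ ℂ) (hQ : ∀ i j, Q i j = - Q j i)
    (hS : ∀ i j, S i j = S j i) : ∑ i, ∑ j, Q i j * S i j = 0 := by
  have h1 : ∑ i, ∑ j, Q i j * S i j = - ∑ i, ∑ j, Q i j * S i j := by
    conv_lhs => rw [Finset.sum_comm]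
    rw [← Finset.sum_neg_distrib]
    refine Finset.sum_congr rfl fun i _ => ?_
    rw [← Finset.sum_neg_distrib]
    refine Finset.sum_congr rfl fun j _ => ?_
    rw [hQ j i, hS j i, neg_mul]
  exact self_eq_neg.1 h1

variable (w : τ → ℤ) (d : ℤ) (hd : 0 < d) (g : MvPolynomial τ ℂ)

/-- the exactness statement used for the Jacobian ideal -/
def KoszulExact (f : τ → MvPolynomial τ ℂ) : Prop :=
  ∀ a : τ → MvPolynomial τ ℂ, ∑ i, a i * f i = 0 →
    ∃ q : τ → τ → MvPolynomial τ ℂ, (∀ i j, q i j = - q j i) ∧ (∀ i, q i i = 0) ∧
      ∀ i, a i = ∑ j, q i j * f j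

include hd in
theorem step (hg : ∀ i, IsWeightedHomogeneous w (pderiv i g) (d - w i))
    (hK : KoszulExact (fun i => pderiv i g)) (e : ℤ) (he : 0 < e + d)
    (q : τ → MvPolynomial τ ℂ)
    (hq : ∀ i, ∀ e', e < e' → weightedHomogeneousComponent w (e' + w i) (q i) = 0)
    (h1 : ∑ i, (pderiv i (q i) - pderiv i g * q i) = 1) :
    ∃ q' : τ → MvPolynomial τ ℂ,
      (∀ i, ∀ e', e - 1 < e' → weightedHomogeneousComponent w (e' + w i) (q' i) = 0) ∧
      ∑ i, (pderiv i (q' i) - pderiv i g * q' i) = 1 := by
  set t : τ → MvPolynomial τ ℂ := fun i => weightedHomogeneousComponent w (e + w i) (q i) with ht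
  have h2 : ∑ i, t i * pderiv i g = 0 := by
    have h3 := congrArg (weightedHomogeneousComponent w (e + d)) h1
    rw [map_sum, (isWeightedHomogeneous_one (R := ℂ) w).weightedHomogeneousComponent_ne
      (e + d) he.ne'] at h3
    have h4 : ∀ i, weightedHomogeneousComponent w (e + d)
        (pderiv i (q i) - pderiv i g * q i) = - (t i * pderiv i g) := by
      intro i
      rw [map_sub, comp_pderiv, hq i (e + d) (by omega), map_zero, zero_sub]
      have h5 := comp_mul w (hg i) (e + w i) (q i)
      rw [show e + w i + (d - w i) = e + d by ring] at h5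
      rw [h5, ht, mul_comm]
    rw [Finset.sum_congr rfl fun i _ => h4 i, Finset.sum_neg_distrib] at h3
    exact neg_eq_zero.1 h3
  obtain ⟨Q, hQ, -, hQt⟩ := hK t h2
  set R : τ → τ → MvPolynomial τ ℂ := fun i j =>
    weightedHomogeneousComponent w (e + w i + w j - d) (Q i j) with hR
  have hRa : ∀ i j, R i j = - R j i := by
    intro i j
    simp only [hR]
    rw [hQ i j, map_neg, show e + w i + w j - d = e + w j + w i - d by ring]
  have hRt : ∀ i, t i = ∑ j, R i j * pderiv j g := by
    intro i
    have h3 : weightedHomogeneousComponent w (e + w i) (t i) = t i := by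
      simp only [ht]
      rw [comp_comp, if_pos rfl]
    rw [← h3, hQt i, map_sum]
    refine Finset.sum_congr rfl fun j _ => ?_
    have h5 := comp_mul w (hg j) (e + w i + w j - d) (Q i j)
    rw [show e + w i + w j - d + (d - w j) = e + w i by ring] at h5
    rw [mul_comm, h5, mul_comm]
  refine ⟨fun i => q i - t i + ∑ j, pderiv j (R i j), fun i e' he' => ?_, ?_⟩
  · rw [map_add, map_sub, map_sum]
    have h3 : weightedHomogeneousComponent w (e' + w i) (q i) -
        weightedHomogeneousComponent w (e' + w i) (t i) = 0 := by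
      simp only [ht]
      rw [comp_comp]
      by_cases h : e' = e
      · rw [h, if_pos rfl, sub_self]
      · rw [if_neg (by omega), hq i e' (by omega), sub_zero]
    rw [h3, zero_add]
    refine Finset.sum_eq_zero fun j _ => ?_
    rw [comp_pderiv]
    simp only [hR]
    rw [comp_comp, if_neg (by omega), map_zero]
  · -- the identity
    have e1 : ∑ i, (pderiv i (t i) - pderiv i g * t i) =
        ∑ i, ∑ j, pderiv j g * pderiv i (R i j) := by
      have h3 : ∑ i, ∑ j, R i j * (pderiv i g * pderiv j g) = 0 :=
        sum_anti_symm R _ hRa fun i j => mul_comm _ _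
      have h4 : ∑ i, ∑ j, R i j * pderiv i (pderiv j g) = 0 :=
        sum_anti_symm R _ hRa fun i j => pderiv_comm' i j g
      have h5 : ∑ i, (pderiv i (t i) - pderiv i g * t i) =
          ∑ i, ∑ j, pderiv j g * pderiv i (R i j) + ∑ i, ∑ j, R i j * pderiv i (pderiv j g)
            - ∑ i, ∑ j, R i j * (pderiv i g * pderiv j g) := by
        rw [← Finset.sum_add_distrib, ← Finset.sum_sub_distrib]
        refine Finset.sum_congr rfl fun i _ => ?_
        rw [hRt i, map_sum, Finset.mul_sum, ← Finset.sum_add_distrib, ← Finset.sum_sub_distrib,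
          ← Finset.sum_sub_distrib]
        refine Finset.sum_congr rfl fun j _ => ?_
        rw [Derivation.leibniz]
        simp only [smul_eq_mul]
        ring
      rw [h5, h3, h4]
      ring
    have e2 : ∑ i, (pderiv i (∑ j, pderiv j (R i j)) - pderiv i g * ∑ j, pderiv j (R i j)) =
        ∑ i, ∑ j, pderiv j g * pderiv i (R i j) := by
      have h3 : ∑ i, pderiv i (∑ j, pderiv j (R i j)) = 0 := by
        have h4 : ∑ i, pderiv i (∑ j, pderiv j (R i j)) =
            - ∑ i, pderiv i (∑ j, pderiv j (R i j)) := by
          calc ∑ i, pderiv i (∑ j, pderiv j (R i j)) = ∑ i, ∑ j, pderiv i (pderiv j (R i j)) := by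
                simp only [map_sum]
            _ = ∑ i, ∑ j, pderiv j (pderiv i (R j i)) := Finset.sum_comm
            _ = - ∑ i, ∑ j, pderiv i (pderiv j (R i j)) := by
                rw [← Finset.sum_neg_distrib]
                refine Finset.sum_congr rfl fun i _ => ?_
                rw [← Finset.sum_neg_distrib]
                refine Finset.sum_congr rfl fun j _ => ?_
                rw [hRa j i, map_neg, map_neg, pderiv_comm' j i]
            _ = _ := by simp only [map_sum]
        exact self_eq_neg.1 h4
      rw [Finset.sum_sub_distrib, h3, zero_sub, ← Finset.sum_neg_distrib]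
      calc ∑ i, -(pderiv i g * ∑ j, pderiv j (R i j)) =
            ∑ i, ∑ j, -(pderiv i g * pderiv j (R i j)) := by
              refine Finset.sum_congr rfl fun i _ => ?_
              rw [Finset.mul_sum, Finset.sum_neg_distrib]
        _ = ∑ i, ∑ j, -(pderiv j g * pderiv i (R j i)) := Finset.sum_comm
        _ = _ := by
              refine Finset.sum_congr rfl fun i _ => Finset.sum_congr rfl fun j _ => ?_
              rw [hRa j i, map_neg, mul_neg, neg_neg]
    have e3 : ∀ i, pderiv i (q i - t i + ∑ j, pderiv j (R i j)) -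
        pderiv i g * (q i - t i + ∑ j, pderiv j (R i j)) =
        (pderiv i (q i) - pderiv i g * q i) - (pderiv i (t i) - pderiv i g * t i) +
        (pderiv i (∑ j, pderiv j (R i j)) - pderiv i g * ∑ j, pderiv j (R i j)) := by
      intro i
      rw [map_add, map_sub]
      ring
    rw [Finset.sum_congr rfl fun i _ => e3 i, Finset.sum_add_distrib, Finset.sum_sub_distrib,
      h1, e1, e2]
    ring

include hd in
theorem no_one (hg : ∀ i, IsWeightedHomogeneous w (pderiv i g) (d - w i))
    (hK : KoszulExact (fun i => pderiv i g)) (h0 : ∀ i, constantCoeff (pderiv i g) = 0) (N : ℕ) :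
    ∀ q : τ → MvPolynomial τ ℂ,
      (∀ i, ∀ e', (N : ℤ) - d < e' → weightedHomogeneousComponent w (e' + w i) (q i) = 0) →
      ∑ i, (pderiv i (q i) - pderiv i g * q i) ≠ 1 := by
  induction N with
  | zero =>
    intro q hq h1
    have h2 := congrArg constantCoeff h1
    rw [map_sum, map_one] at h2
    have h3 : ∀ i, constantCoeff (pderiv i (q i) - pderiv i g * q i) = 0 := by
      intro i
      rw [map_sub, map_mul, h0 i, zero_mul, sub_zero]
      have h4 := comp_pderiv w i 0 (q i)
      rw [hq i 0 (by push_cast; omega), map_zero] at h4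
      have h5 := congrArg (coeff 0) h4
      rw [coeff_weightedHomogeneousComponent, if_pos (by simp), coeff_zero] at h5
      exact h5
    rw [Finset.sum_congr rfl fun i _ => h3 i, Finset.sum_const_zero] at h2
    exact zero_ne_one h2
  | succ N ih =>
    intro q hq h1
    obtain ⟨q', hq', h1'⟩ := step w d hd g hg hK ((N + 1 : ℕ) - d) (by push_cast; omega) q hq h1
    refine ih q' (fun i e' he' => hq' i e' ?_) h1'
    push_cast
    omega

include hd in
/-- the functional -/
theorem exists_functional (hg : ∀ i, IsWeightedHomogeneous w (pderiv i g) (d - w i))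
    (hK : KoszulExact (fun i => pderiv i g)) (h0 : ∀ i, constantCoeff (pderiv i g) = 0) :
    ∃ I : MvPolynomial τ ℂ →ₗ[ℂ] ℂ, I 1 = 1 ∧ ∀ i q, I (pderiv i q) = I (pderiv i g * q) := by
  let L : (τ → MvPolynomial τ ℂ) →ₗ[ℂ] MvPolynomial τ ℂ :=
    ∑ i, ((pderiv i).toLinearMap - LinearMap.mulLeft ℂ (pderiv i g)) ∘ₗ LinearMap.proj i
  have hL : ∀ q, L q = ∑ i, (pderiv i (q i) - pderiv i g * q i) := by
    intro q
    simp [L]
  have h1 : (1 : MvPolynomial τ ℂ) ∉ LinearMap.range L := by
    rintro ⟨q, hq⟩
    rw [hL] at hq
    choose E hE using fun i => comp_large w (q i)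
    obtain ⟨N, hN⟩ : ∃ N : ℕ, ∀ i, E i - w i ≤ (N : ℤ) - d := by
      refine ⟨(∑ i, |E i - w i + d|).toNat, fun i => ?_⟩
      have h2 : |E i - w i + d| ≤ ∑ i, |E i - w i + d| :=
        Finset.single_le_sum (f := fun i => |E i - w i + d|) (fun i _ => abs_nonneg _)
          (Finset.mem_univ i)
      have h3 := le_abs_self (E i - w i + d)
      omega
    refine no_one w d hd g hg hK h0 N q (fun i e' he' => hE i _ ?_) hq
    have := hN i
    omega
  obtain ⟨I, hI1, hI2⟩ := Submodule.exists_le_ker_of_notMem h1
  refine ⟨(I 1)⁻¹ • I, ?_, fun i q => ?_⟩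
  · rw [LinearMap.smul_apply, smul_eq_mul, inv_mul_cancel₀ hI1]
  · have h2 : I (L (Pi.single i q)) = 0 := hI2 ⟨_, rfl⟩
    rw [hL, Finset.sum_eq_single i] at h2
    · rw [Pi.single_eq_same, map_sub] at h2
      rw [LinearMap.smul_apply, LinearMap.smul_apply, sub_eq_zero.1 h2]
    · intro j _ hj
      rw [Pi.single_eq_of_ne hj, map_zero, mul_zero, sub_zero]
    · simp

end Main

end Pool.Agent.Helper47_Mono
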