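import Pool.Agent.Helper6_Mono.BRoots
import Pool.Agent.Helper47_Mono.Weyl

/-!
# A root of the Bernstein-Sato polynomial of a weighted homogeneous isolated singularity

`sRoot_block`: `-(∑ wᵢ)/d` is a root of the `b`-function of `g` for a strong reason (`SRoot`).
-/

set_option autoImplicit false

namespace Pool.Agent.Helper47_Mono

open MvPolynomial Pool.Agent.Helper6_Mono

section Dual

variable {τ : Type}

/-- the transposed multiplication by `p` -/
noncomputable def tMul (p : MvPolynomial τ ℂ) :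
    Module.End ℂ (Module.Dual ℂ (MvPolynomial τ ℂ)) :=
  (LinearMap.mulLeft ℂ p).dualMap

theorem tMul_apply (p q : MvPolynomial τ ℂ) (ψ : Module.Dual ℂ (MvPolynomial τ ℂ)) :
    tMul p ψ q = ψ (p * q) := rfl

/-- polynomials act on the dual of the polynomials -/
noncomputable def dualAct :
    MvPolynomial τ ℂ →ₐ[ℂ] Module.End ℂ (Module.Dual ℂ (MvPolynomial τ ℂ)) where
  toFun := tMul
  map_one' := by
    refine LinearMap.ext fun ψ => LinearMap.ext fun q => ?_
    simp [tMul_apply]
  map_mul' p p' := by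
    refine LinearMap.ext fun ψ => LinearMap.ext fun q => ?_
    rw [Module.End.mul_apply, tMul_apply, tMul_apply, tMul_apply]
    congr 1
    ring
  map_zero' := by
    refine LinearMap.ext fun ψ => LinearMap.ext fun q => ?_
    simp [tMul_apply]
  map_add' p p' := by
    refine LinearMap.ext fun ψ => LinearMap.ext fun q => ?_
    simp [tMul_apply, add_mul]
  commutes' a := by
    refine LinearMap.ext fun ψ => LinearMap.ext fun q => ?_
    rw [tMul_apply, Module.algebraMap_end_apply, algebraMap_eq, C_mul', map_smul,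
      LinearMap.smul_apply]

theorem dualAct_apply (p q : MvPolynomial τ ℂ) (ψ : Module.Dual ℂ (MvPolynomial τ ℂ)) :
    dualAct p ψ q = ψ (p * q) := rfl

/-- the transposed derivation (with a sign) -/
noncomputable def tD (i : τ) : Module.End ℂ (Module.Dual ℂ (MvPolynomial τ ℂ)) :=
  - ((pderiv i).toLinearMap).dualMap

theorem tD_apply (i : τ) (q : MvPolynomial τ ℂ) (ψ : Module.Dual ℂ (MvPolynomial τ ℂ)) :
    tD i ψ q = - ψ (pderiv i q) := rfl

end Dual

theorem weight_cast {τ : Type} (w : τ → ℕ) (u : τ →₀ ℕ) :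
    Finsupp.weight (fun i => (w i : ℤ)) u = ((Finsupp.weight w u : ℕ) : ℤ) := by
  rw [Finsupp.weight_apply, Finsupp.weight_apply, Finsupp.sum, Finsupp.sum]
  push_cast
  simp

theorem hom_cast {τ : Type} (w : τ → ℕ) (p : MvPolynomial τ ℂ) (n : ℕ) :
    IsWeightedHomogeneous (fun i => (w i : ℤ)) p (n : ℤ) ↔ IsWeightedHomogeneous w p n := by
  unfold IsWeightedHomogeneous
  simp only [weight_cast, Nat.cast_inj]

section Euler

variable {τ : Type} [Fintype τ] (w : τ → ℕ) (d : ℕ)
  (g : MvPolynomial τ ℂ) (I : MvPolynomial τ ℂ →ₗ[ℂ] ℂ)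

theorem euler_functional (hg : IsWeightedHomogeneous w g d)
    (hI : ∀ i q, I (pderiv i q) = I (pderiv i g * q)) (n : ℕ) (p : MvPolynomial τ ℂ)
    (hp : IsWeightedHomogeneous w p n) :
    (d : ℂ) * I (g * p) = ((∑ i, w i : ℕ) + n : ℂ) * I p := by
  classical
  have h1 : ∑ i, (w i : ℂ) * I (pderiv i (X i * p)) = ((∑ i, w i : ℕ) + n : ℂ) * I p := by
    have h2 := hp.sum_weight_X_mul_pderiv
    have h3 := congrArg I h2
    rw [map_sum, map_nsmul, nsmul_eq_mul] at h3
    have h4 : ∀ i, (w i : ℂ) * I (pderiv i (X i * p)) =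
        (w i : ℂ) * I p + I (w i • (X i * pderiv i p)) := by
      intro i
      rw [Derivation.leibniz, pderiv_X_self, smul_eq_mul, smul_eq_mul, mul_one, map_add,
        map_nsmul, nsmul_eq_mul]
      ring
    rw [Finset.sum_congr rfl fun i _ => h4 i, Finset.sum_add_distrib, h3, ← Finset.sum_mul]
    push_cast
    ring
  have h5 : ∑ i, (w i : ℂ) * I (pderiv i g * (X i * p)) = (d : ℂ) * I (g * p) := by
    have h2 := hg.sum_weight_X_mul_pderiv
    have h3 := congrArg (fun q => I (q * p)) h2
    rw [Finset.sum_mul, map_sum, smul_mul_assoc, map_nsmul, nsmul_eq_mul] at h3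
    rw [← h3]
    refine Finset.sum_congr rfl fun i _ => ?_
    rw [smul_mul_assoc, map_nsmul, nsmul_eq_mul]
    congr 2
    ring
  rw [← h5, ← h1]
  exact Finset.sum_congr rfl fun i _ => by rw [hI]

end Euler

section Chain

variable {τ : Type} [Fintype τ] (w : τ → ℕ) (d : ℕ) (g : MvPolynomial τ ℂ)
  (I : MvPolynomial τ ℂ →ₗ[ℂ] ℂ)

/-- `x = |w| / d` -/
noncomputable def xx : ℂ := ((∑ i, w i : ℕ) : ℂ) / d

/-- `a_k = 1 / (x (x + 1) ... (x + k - 1))` -/
noncomputable def aa (k : ℕ) : ℂ := ∏ j ∈ Finset.range k, (xx w d + j)⁻¹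

/-- the elements `ψ_k` -/
noncomputable def psi (k : ℕ) : Module.Dual ℂ (MvPolynomial τ ℂ) :=
  aa w d k • (I ∘ₗ weightedHomogeneousComponent (fun i => (w i : ℤ)) ((k * d : ℕ) : ℤ))

theorem psi_apply (k : ℕ) (q : MvPolynomial τ ℂ) :
    psi w d I k q =
      aa w d k * I (weightedHomogeneousComponent (fun i => (w i : ℤ)) ((k * d : ℕ) : ℤ) q) := rfl

variable {w d}

theorem xx_add_ne [Nonempty τ] (hw : ∀ i, 0 < w i) (hd : 0 < d) (k : ℕ) : xx w d + k ≠ 0 := by
  have h1 : 0 < ∑ i, w i := Finset.sum_pos (fun i _ => hw i) Finset.univ_nonempty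
  have h2 : xx w d + k = ((((∑ i, w i : ℕ) : ℝ) / d + k : ℝ) : ℂ) := by
    unfold xx
    push_cast
    ring
  rw [h2, Complex.ofReal_ne_zero]
  have h3 : (0 : ℝ) < ((∑ i, w i : ℕ) : ℝ) / d := by positivity
  positivity

theorem aa_succ [Nonempty τ] (hw : ∀ i, 0 < w i) (hd : 0 < d) (k : ℕ) :
    aa w d (k + 1) * (xx w d + k) = aa w d k := by
  unfold aa
  rw [Finset.prod_range_succ, mul_assoc, inv_mul_cancel₀ (xx_add_ne hw hd k), mul_one]

variable {g I}

theorem mul_psi' [Nonempty τ] (hw : ∀ i, 0 < w i) (hd : 0 < d) (hg : IsWeightedHomogeneous w g d)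
    (hI : ∀ i q, I (pderiv i q) = I (pderiv i g * q)) (k : ℕ) (q : MvPolynomial τ ℂ) :
    psi w d I (k + 1) (g * q) = psi w d I k q := by
  rw [psi_apply, psi_apply]
  have h1 := comp_mul (fun i => (w i : ℤ)) ((hom_cast w g d).2 hg) ((k * d : ℕ) : ℤ) q
  rw [show (((k + 1) * d : ℕ) : ℤ) = ((k * d : ℕ) : ℤ) + (d : ℤ) by push_cast; ring, h1]
  set p := weightedHomogeneousComponent (fun i => (w i : ℤ)) ((k * d : ℕ) : ℤ) q with hp
  have h2 : IsWeightedHomogeneous w p (k * d) := by
    rw [← hom_cast]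
    exact weightedHomogeneousComponent_isWeightedHomogeneous _ _
  have h3 := euler_functional w d g I hg hI (k * d) p h2
  have hd' : (d : ℂ) ≠ 0 := by exact_mod_cast hd.ne'
  have h4 : I (g * p) = (xx w d + k) * I p := by
    unfold xx
    field_simp
    rw [mul_comm, h3]
    push_cast
    ring
  rw [h4, ← mul_assoc, aa_succ hw hd]

omit [Fintype τ] in
theorem hom_pderiv (hg : IsWeightedHomogeneous w g d) (i : τ) :
    IsWeightedHomogeneous (fun i => (w i : ℤ)) (pderiv i g) ((d : ℤ) - w i) :=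
  ((hom_cast w g d).2 hg).pderiv (by ring)

theorem d_psi' [Nonempty τ] (hw : ∀ i, 0 < w i) (hd : 0 < d) (hg : IsWeightedHomogeneous w g d)
    (hI : ∀ i q, I (pderiv i q) = I (pderiv i g * q)) (i : τ) (k : ℕ) (q : MvPolynomial τ ℂ) :
    psi w d I k (pderiv i q) = (xx w d + k) * psi w d I (k + 1) (pderiv i g * q) := by
  rw [psi_apply, psi_apply, comp_pderiv, hI]
  have h1 := comp_mul (fun i => (w i : ℤ)) (hom_pderiv hg i) (((k * d : ℕ) : ℤ) + w i) q
  rw [show (((k * d : ℕ) : ℤ) + w i) + ((d : ℤ) - w i) = (((k + 1) * d : ℕ) : ℤ) by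
    push_cast; ring] at h1
  rw [h1, ← mul_assoc, mul_comm (xx w d + k), aa_succ hw hd]

omit [Fintype τ] in
theorem comp_neg (e : ℤ) (he : e < 0) (p : MvPolynomial τ ℂ) :
    weightedHomogeneousComponent (fun i => (w i : ℤ)) e p = 0 := by
  apply weightedHomogeneousComponent_eq_zero'
  intro u _ h
  rw [weight_cast] at h
  omega

theorem psi_zero_g (hd : 0 < d) (hg : IsWeightedHomogeneous w g d) (q : MvPolynomial τ ℂ) :
    psi w d I 0 (g * q) = 0 := by
  rw [psi_apply]
  have h1 := comp_mul (fun i => (w i : ℤ)) ((hom_cast w g d).2 hg) (-d) q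
  rw [show -(d : ℤ) + (d : ℤ) = ((0 * d : ℕ) : ℤ) by push_cast; ring] at h1
  rw [h1, comp_neg _ (by omega), mul_zero, map_zero, mul_zero]

omit [Fintype τ] in
theorem eq_C_of_weight_zero (hw : ∀ i, 0 < w i) (h : MvPolynomial τ ℂ)
    (hh : IsWeightedHomogeneous (fun i => (w i : ℤ)) h 0) : h = C (constantCoeff h) := by
  classical
  ext u
  rw [coeff_C]
  split_ifs with hu
  · rw [← hu]; rfl
  · by_contra hne
    have h1 := hh hne
    rw [weight_cast] at h1
    have h2 : Finsupp.weight w u = 0 := by exact_mod_cast h1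
    rw [Finsupp.weight_apply, Finsupp.sum, Finset.sum_eq_zero_iff] at h2
    apply hu
    symm
    ext i
    by_cases hi : i ∈ u.support
    · have h3 := h2 i hi
      rw [smul_eq_mul] at h3
      have h4 := hw i
      rcases Nat.mul_eq_zero.1 h3 with h5 | h5
      · simpa using h5
      · omega
    · simpa using hi

theorem psi_zero_pderiv (hw : ∀ i, 0 < w i) (hg : IsWeightedHomogeneous w g d)
    (h0 : ∀ i, constantCoeff (pderiv i g) = 0) (i : τ) (q : MvPolynomial τ ℂ) :
    psi w d I 0 (pderiv i g * q) = 0 := by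
  rw [psi_apply]
  have h2 := hom_pderiv hg i
  have h1 := comp_mul (fun i => (w i : ℤ)) h2 (w i - d) q
  rw [show ((w i : ℤ) - d) + ((d : ℤ) - w i) = ((0 * d : ℕ) : ℤ) by push_cast; ring] at h1
  rw [h1]
  rcases lt_trichotomy ((w i : ℤ) - d) 0 with h | h | h
  · rw [comp_neg _ h, mul_zero, map_zero, mul_zero]
  · have h3 : pderiv i g = 0 := by
      rw [show (d : ℤ) - w i = 0 by omega] at h2
      rw [eq_C_of_weight_zero hw _ h2, h0 i, map_zero]
    rw [h3, zero_mul, map_zero, mul_zero]
  · have h3 : pderiv i g = 0 := by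
      rw [← h2.weightedHomogeneousComponent_same]
      exact comp_neg _ (by omega) _
    rw [h3, zero_mul, map_zero, mul_zero]

theorem psi_zero_one (hI1 : I 1 = 1) : psi w d I 0 1 = 1 := by
  rw [psi_apply]
  have h1 := (isWeightedHomogeneous_one (R := ℂ) (fun i => (w i : ℤ))).weightedHomogeneousComponent_same
  simp only [zero_mul, Nat.cast_zero]
  rw [h1, hI1, aa]
  simp

end Chain

section Transfer

variable {σ : Type}

theorem kill_rename (s : Set σ) (p : MvPolynomial s ℂ) :
    kill s (rename (Subtype.val : s → σ) p) = p := by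
  have : (kill s).comp (rename (Subtype.val : s → σ)) = AlgHom.id ℂ _ := by
    ext i : 1
    simp [kill]
  exact DFunLike.congr_fun this p

theorem pderiv_kill (s : Set σ) {g : MvPolynomial σ ℂ} (hg : g ∈ supported ℂ s) (i : s) :
    kill s (pderiv i.1 g) = pderiv i (kill s g) := by
  rw [supported_eq_range_rename] at hg
  obtain ⟨p, rfl⟩ := hg
  have h := pderiv_rename (R := ℂ) (f := (Subtype.val : s → σ)) Subtype.val_injective i p
  simp only [AlgHom.toRingHom_eq_coe, RingHom.coe_coe] at *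
  rw [h, kill_rename, kill_rename]

end Transfer

/-- Koszul exactness in degree one (over `ℂ`), proved as `koszul_H1` by helper64 -/
def KoszulH1 : Prop :=
  ∀ (τ : Type) [Fintype τ] [DecidableEq τ] (f : τ → MvPolynomial τ ℂ),
    (∀ i, X i ∈ (Ideal.span (Set.range f)).radical) →
    ∀ a : τ → MvPolynomial τ ℂ, ∑ i, a i * f i = 0 →
      ∃ q : τ → τ → MvPolynomial τ ℂ, (∀ i j, q i j = - q j i) ∧ (∀ i, q i i = 0) ∧
        ∀ i, a i = ∑ j, q i j * f j

theorem sRoot_block_of (hKos : KoszulH1) {σ : Type} {s : Finset σ} (hs : s.Nonempty) (w : σ → ℕ) (d : ℕ)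
    (g : MvPolynomial σ ℂ) (hw : ∀ i ∈ s, 0 < w i) (hg : IsWeightedHomogeneous w g d)
    (hsupp : g ∈ supported ℂ (s : Set σ))
    (hJ : ∀ i ∈ s, X i ∈ (Ideal.span (Set.range fun j => pderiv j g)).radical)
    (h1 : ∀ i ∈ s, constantCoeff (pderiv i g) = 0) :
    SRoot (s : Set σ) g (((∑ i ∈ s, w i : ℕ) : ℂ) / d) := by
  classical
  have hne : Nonempty (s : Set σ) := by
    obtain ⟨i, hi⟩ := hs
    exact ⟨⟨i, hi⟩⟩
  set g' : MvPolynomial (s : Set σ) ℂ := kill (s : Set σ) g with hg'
  set w' : ↥(s : Set σ) → ℕ := fun i => w i.1 with hw'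
  have hgg : rename (Subtype.val : ↥(s : Set σ) → σ) g' = g := proj_of_supported hsupp
  have hpos : ∀ i, 0 < w' i := fun i => hw i.1 i.2
  have hpd : ∀ i : (s : Set σ), pderiv i g' = kill (s : Set σ) (pderiv i.1 g) := fun i =>
    (pderiv_kill _ hsupp i).symm
  have hc0 : ∀ i : (s : Set σ), constantCoeff (pderiv i g') = 0 := by
    intro i
    have h2 : constantCoeff (pderiv i.1 g) = 0 := h1 i.1 i.2
    have h3 : proj (s : Set σ) (pderiv i.1 g) = pderiv i.1 g :=
      proj_of_supported (pderiv_mem_supported hsupp i.1)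
    rw [hpd i, ← constantCoeff_rename (Subtype.val : ↥(s : Set σ) → σ)]
    change constantCoeff (proj (s : Set σ) (pderiv i.1 g)) = 0
    rw [h3, h2]
  have hgw : IsWeightedHomogeneous w' g' d := by
    intro u hu
    have h2 : coeff (u.mapDomain Subtype.val) g ≠ 0 := by
      rw [← hgg, coeff_rename_mapDomain _ Subtype.val_injective]
      exact hu
    have h3 := hg h2
    rw [← h3, Finsupp.weight_apply, Finsupp.weight_apply, Finsupp.sum_mapDomain_index]
    · simp
    · intro b m₁ m₂
      rw [add_smul]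
  have hJ' : ∀ i : (s : Set σ), X i ∈ (Ideal.span (Set.range fun j => pderiv j g')).radical := by
    intro i
    obtain ⟨n, hn⟩ := hJ i.1 i.2
    refine ⟨n, ?_⟩
    have h2 := Ideal.mem_map_of_mem (kill (s : Set σ)).toRingHom hn
    rw [Ideal.map_span] at h2
    have h3 : (kill (s : Set σ)).toRingHom (X i.1 ^ n) = X i ^ n := by
      simp [kill]
    rw [h3] at h2
    refine Ideal.span_le.2 ?_ h2
    rintro _ ⟨_, ⟨j, rfl⟩, rfl⟩
    by_cases hj : j ∈ s
    · apply Ideal.subset_span
      exact ⟨⟨j, hj⟩, hpd ⟨j, hj⟩⟩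
    · have h4 : pderiv j g = 0 := pderiv_eq_zero_of_supported hsupp (by simpa using hj)
      simp [h4]
  have hd : 0 < d := by
    rcases Nat.eq_zero_or_pos d with h | h
    · exfalso
      obtain ⟨i⟩ := hne
      have h2 : IsWeightedHomogeneous (fun i => (w' i : ℤ)) g' 0 := by
        have := (hom_cast w' g' d).2 hgw
        rwa [h] at this
      have h3 := eq_C_of_weight_zero hpos g' h2
      obtain ⟨n, hn⟩ := hJ' i
      have h4 : Set.range (fun j => pderiv j g') ⊆ {0} := by
        rintro _ ⟨j, rfl⟩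
        dsimp only
        rw [h3, pderiv_C]
        rfl
      have h5 := Ideal.span_mono h4 hn
      rw [Ideal.span_singleton_eq_bot.2 rfl, Ideal.mem_bot] at h5
      exact pow_ne_zero n (X_ne_zero i) h5
    · exact h
  obtain ⟨I, hI1, hI⟩ := exists_functional (fun i => (w' i : ℤ)) (d : ℤ) (by exact_mod_cast hd) g'
    (hom_pderiv hgw) (fun a ha =>
      hKos _ (fun i => pderiv i g') hJ' a ha) hc0
  have hx : ((∑ i ∈ s, w i : ℕ) : ℂ) / d = xx w' d := by
    unfold xx
    congr 2
    rw [← Finset.sum_coe_sort s]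
    rfl
  rw [hx]
  let c : Chain (s : Set σ) g (xx w' d) (Module.Dual ℂ (MvPolynomial (s : Set σ) ℂ)) :=
    { act := dualAct.comp (kill (s : Set σ))
      d := fun i => if h : i ∈ (s : Set σ) then tD ⟨i, h⟩ else 0
      leibX := by
        intro i hi j ψ
        rw [dif_pos hi]
        refine LinearMap.ext fun q => ?_
        simp only [AlgHom.comp_apply, LinearMap.add_apply, tD_apply, dualAct_apply]
        by_cases hj : j ∈ (s : Set σ)
        · have h2 : kill (s : Set σ) (X j) = X ⟨j, hj⟩ := by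
            simp only [kill, aeval_X]
            exact dif_pos hj
          rw [h2, Derivation.leibniz, smul_eq_mul, smul_eq_mul, map_add, pderiv_X, pderiv_X]
          by_cases hij : j = i
          · subst hij
            simp
          · have h3 : (⟨j, hj⟩ : (s : Set σ)) ≠ ⟨i, hi⟩ := by
              intro h; apply hij; exact congrArg Subtype.val h
            simp [hij, h3]
        · have h2 : kill (s : Set σ) (X j) = 0 := by
            simp only [kill, aeval_X]
            exact dif_neg hj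
          have hij : j ≠ i := by rintro rfl; exact hj hi
          rw [h2, pderiv_X_of_ne hij]
          simp
      psi := psi w' d I
      mul_psi := by
        intro k
        refine LinearMap.ext fun q => ?_
        exact mul_psi' hpos hd hgw hI k q
      d_psi := by
        intro i hi k
        rw [dif_pos hi]
        refine LinearMap.ext fun q => ?_
        have h2 := d_psi' hpos hd hgw hI ⟨i, hi⟩ k q
        rw [hpd] at h2
        rw [tD_apply, h2, LinearMap.smul_apply, AlgHom.comp_apply, dualAct_apply, smul_eq_mul,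
          neg_mul]
      ne := by
        intro h
        have h2 := psi_zero_one (w := w') (d := d) hI1
        rw [h] at h2
        simp at h2 }
  refine ⟨Module.Dual ℂ (MvPolynomial (s : Set σ) ℂ), inferInstance, inferInstance, c, ?_, ?_⟩
  · refine LinearMap.ext fun q => ?_
    exact psi_zero_g hd hgw q
  · intro i hi
    refine LinearMap.ext fun q => ?_
    have h2 := psi_zero_pderiv (I := I) hpos hgw hc0 ⟨i, hi⟩ q
    rw [hpd] at h2
    exact h2

end Pool.Agent.Helper47_Mono
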